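import Mathlib

set_option autoImplicit false

namespace Pool.Agent.Results.MP_234613_al.Neg

open TensorProduct PowerSeries

/-- `F_* R`: the additive group of `R`, with `r` acting as multiplication by `r ^ p`. -/
def Fr (R : Type) (_p : ℕ) : Type := R

instance (R : Type) [CommRing R] (p : ℕ) : AddCommGroup (Fr R p) := inferInstanceAs (AddCommGroup R)

instance (R : Type) [CommRing R] (p : ℕ) [ExpChar R p] : Module R (Fr R p) :=
  Module.compHom R (frobenius R p)

def one (R : Type) [CommRing R] (p : ℕ) : Fr R p := (1 : R)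

/-- The map `M → M ⊗ F_* R` is injective for every module `M`. -/
def FPure (R : Type) [CommRing R] (p : ℕ) [ExpChar R p] : Prop :=
  ∀ (M : Type) [AddCommGroup M] [Module R M], Function.Injective fun m : M => m ⊗ₜ[R] one R p

abbrev k := ZMod 2

theorem sq (a : k) : a ^ 2 = a := by revert a; decide

abbrev A := PowerSeries k

instance : CharP A 2 := charP_of_injective_algebraMap (algebraMap k A).injective 2

theorem exz : ∃ z : A, Transcendental (Polynomial k) z := by
  by_contra h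
  push Not at h
  haveI : Module.IsTorsionFree (Polynomial k) A :=
    Module.isTorsionFree_iff_algebraMap_injective.2 (Polynomial.coe_injective k)
  haveI : Countable (Polynomial k) := Cardinal.mk_le_aleph0_iff.1
    (Polynomial.cardinalMk_le_max.trans (max_le Cardinal.mk_le_aleph0 le_rfl))
  have hc : (Set.univ : Set A).Countable :=
    (Algebraic.countable (Polynomial k) A).mono fun z _ => not_not.1 (h z)
  obtain ⟨f, hf⟩ := hc.exists_eq_range ⟨0, trivial⟩
  obtain ⟨n, hn⟩ : (mk fun n => coeff n (f n) + 1 : A) ∈ Set.range f := hf ▸ trivial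
  have := congrArg (coeff n) hn
  simp at this

/-- Power series that are quotients of elements of `S`. -/
def W (S : Subalgebra (Polynomial k) A) : Subring A where
  carrier := {a | ∃ Q ∈ S, Q ≠ 0 ∧ a * Q ∈ S}
  mul_mem' := fun ⟨P, hP, h0, h1⟩ ⟨Q, hQ, h2, h3⟩ => ⟨P * Q, mul_mem hP hQ, mul_ne_zero h0 h2, by
    rw [mul_mul_mul_comm]; exact mul_mem h1 h3⟩
  one_mem' := ⟨1, one_mem _, one_ne_zero, by simp⟩
  add_mem' := fun {a b} ⟨P, hP, h0, h1⟩ ⟨Q, hQ, h2, h3⟩ =>
    ⟨P * Q, mul_mem hP hQ, mul_ne_zero h0 h2, by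
      rw [show (a + b) * (P * Q) = a * P * Q + b * Q * P by ring]
      exact add_mem (mul_mem h1 hQ) (mul_mem h3 hP)⟩
  zero_mem' := ⟨1, one_mem _, one_ne_zero, by simp⟩
  neg_mem' := fun ⟨P, hP, h0, h1⟩ => ⟨P, hP, h0, by rw [neg_mul]; exact neg_mem h1⟩

variable (S : Subalgebra (Polynomial k) A)

theorem sat {b c : A} (hb : b ∈ W S) (h0 : b ≠ 0) (h : b * c ∈ W S) : c ∈ W S := by
  obtain ⟨P, hP, p0, p1⟩ := hb
  obtain ⟨Q, hQ, q0, q1⟩ := h
  refine ⟨b * P * Q, mul_mem p1 hQ, mul_ne_zero (mul_ne_zero h0 p0) q0, ?_⟩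
  rw [show c * (b * P * Q) = b * c * Q * P by ring]
  exact mul_mem q1 hP

theorem ofS {a : A} (h : a ∈ S) : a ∈ W S := ⟨1, one_mem _, one_ne_zero, by simpa using h⟩

theorem dv {a b : W S} (h : (a : A) ∣ b) : a ∣ b := by
  by_cases h0 : (a : A) = 0
  · rw [h0, zero_dvd_iff] at h
    rw [show b = 0 from Subtype.ext h]; exact dvd_zero _
  · obtain ⟨c, hc⟩ := h
    exact ⟨⟨c, sat S a.2 h0 (hc ▸ b.2)⟩, Subtype.ext hc⟩

instance : ValuationRing (W S) :=
  ValuationRing.iff_dvd_total.2 ⟨fun a b => (ValuationRing.dvd_total (a : A) b).imp (dv S) (dv S)⟩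

instance : IsNoetherianRing (W S) := by
  suffices h : WfDvdMonoid (W S) from ((IsBezout.TFAE (R := W S)).out 0 3).2 h
  refine ⟨?_⟩
  refine Subrelation.wf (fun {a b} ⟨h0, x, hx, e⟩ => ?_)
    (InvImage.wf (fun a : W S => (a : A)) wellFounded_dvdNotUnit)
  refine ⟨fun h => h0 (Subtype.ext h), x, fun hu => hx ?_, congrArg Subtype.val e⟩
  exact isUnit_of_dvd_one (dv S (isUnit_iff_dvd_one.1 hu))

theorem nz (z : A) (hz : Transcendental (Polynomial k) z) :
    z ∉ W (Algebra.adjoin (Polynomial k) {z ^ 2}) := by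
  rintro ⟨Q, hQ, h0, h1⟩
  rw [Algebra.adjoin_singleton_eq_range_aeval] at hQ h1
  obtain ⟨q, rfl⟩ := hQ
  obtain ⟨p, hp⟩ := h1
  have e : Polynomial.X * Polynomial.expand _ 2 q = Polynomial.expand _ 2 p := by
    refine (transcendental_iff_injective.1 hz) ?_
    rw [map_mul, Polynomial.aeval_X, Polynomial.expand_aeval, Polynomial.expand_aeval]
    exact hp.symm
  refine h0 ?_
  have : q = 0 := Polynomial.ext fun n => by
    have := congrArg (fun r => Polynomial.coeff r (2 * n + 1)) e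
    simp only [Polynomial.coeff_X_mul, Polynomial.coeff_expand (by norm_num : 0 < 2)] at this
    rw [if_pos (dvd_mul_right 2 n), if_neg (by omega), Nat.mul_div_cancel_left n (by norm_num)] at this
    exact this
  rw [this]; exact map_zero _

theorem ns (z : A) (h2 : z ^ 2 ∈ W S) (θ : W S → W S) (h1 : θ 1 = 1)
    (ha : ∀ a b, θ (a + b) = θ a + θ b) (hm : ∀ r a, θ (r ^ 2 * a) = r * θ a) : z ∈ W S := by
  have hp : ∀ q : Polynomial k, (q : A) ∈ W S := fun q => ofS S (S.algebraMap_mem q)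
  have hX : (X : A) ∈ W S := by simpa using hp Polynomial.X
  suffices h : (θ ⟨z ^ 2, h2⟩ : A) = z from h ▸ (θ _).2
  ext n
  obtain ⟨w, hw⟩ : (X : A) ^ (n + 1) ∣ z - (trunc (n + 1) z : A) :=
    X_pow_dvd_iff.2 fun m hm => by simp [coeff_trunc, hm]
  have e : z ^ 2 = (trunc (n + 1) z : A) ^ 2 * 1 + (X ^ (n + 1)) ^ 2 * w ^ 2 := by
    rw [mul_one, ← mul_pow, ← hw, ← add_pow_char, add_sub_cancel]
  have hw2 : w ^ 2 ∈ W S := sat S (pow_mem (pow_mem hX (n + 1)) 2)
    (pow_ne_zero _ (pow_ne_zero _ X_ne_zero)) (by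
      rw [← sub_eq_iff_eq_add'.2 e]
      exact sub_mem h2 (mul_mem (pow_mem (hp _) 2) (one_mem _)))
  have e' : (⟨z ^ 2, h2⟩ : W S) = (⟨_, hp (trunc (n + 1) z)⟩ : W S) ^ 2 * 1 +
      (⟨X ^ (n + 1), pow_mem hX _⟩ : W S) ^ 2 * ⟨w ^ 2, hw2⟩ := Subtype.ext e
  rw [e', ha, hm, hm, h1, mul_one]
  show coeff n ((trunc (n + 1) z : A) + X ^ (n + 1) * (θ ⟨w ^ 2, hw2⟩ : A)) = _
  rw [map_add, X_pow_dvd_iff.1 (dvd_mul_right _ _) n n.lt_succ_self]
  simp [coeff_trunc]

/-- The even part of a power series. -/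
noncomputable def ψ (a : A) : A := mk fun n => coeff (2 * n) a

theorem ψa (a b : A) : ψ (a + b) = ψ a + ψ b := by ext n; simp [ψ]

theorem ψX (a : A) : ψ (X ^ 2 * a) = X * ψ a := by
  ext (_ | n)
  · simp [ψ]
  · rw [coeff_succ_X_mul, ψ, ψ, coeff_mk, coeff_mk, mul_add, coeff_X_pow_mul]

theorem ψC (c : k) (a : A) : ψ (C c ^ 2 * a) = C c * ψ a := by
  ext n; rw [← map_pow, sq, ψ, ψ, coeff_mk, coeff_C_mul, coeff_C_mul, coeff_mk]

theorem ψ0 (a : A) : constantCoeff (ψ a) = constantCoeff a := by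
  rw [← coeff_zero_eq_constantCoeff_apply, ψ, coeff_mk, coeff_zero_eq_constantCoeff_apply]

theorem ψm (r a : A) : ψ (r ^ 2 * a) = r * ψ a := by
  ext n
  induction n generalizing r with
  | zero => simp [ψ0, sq]
  | succ n ih =>
    obtain ⟨u, c, rfl⟩ : ∃ u c, r = X * u + C c := ⟨_, _, eq_X_mul_shift_add_const r⟩
    rw [add_pow_char, add_mul, ψa, ψC, mul_pow, mul_assoc, ψX, add_mul, mul_assoc, map_add, map_add,
      coeff_succ_X_mul, coeff_succ_X_mul, ih]

theorem ψ1 : ψ 1 = 1 := by ext n; simp [ψ, coeff_one]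

theorem hp (q : Polynomial k) : (q : A) ∈ W S := ofS S (S.algebraMap_mem q)

theorem hX : (X : A) ∈ W S := by simpa using hp S Polynomial.X

theorem hC (c : k) : (C c : A) ∈ W S := by simpa using hp S (Polynomial.C c)

theorem un (v : W S) (h : constantCoeff (v : A) ≠ 0) : IsUnit v :=
  isUnit_of_dvd_one (dv S (isUnit_iff_dvd_one.1 (isUnit_iff_constantCoeff.2 h.isUnit)))

theorem retr (N : Submodule (W S) A) (hN : N.FG) (h1 : (1 : A) ∈ N) :
    ∃ π : N →ₗ[W S] W S, π ⟨1, h1⟩ = 1 := by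
  haveI : IsPrincipalIdealRing (W S) :=
    ((IsBezout.TFAE (R := W S)).out 0 1).1 (inferInstance : IsNoetherianRing (W S))
  haveI : Module.Finite (W S) N := Module.Finite.iff_fg.2 hN
  let b := Module.Free.chooseBasis (W S) N
  obtain ⟨i, hi⟩ : ∃ i, constantCoeff (b.repr ⟨1, h1⟩ i : A) ≠ 0 := by
    by_contra h
    push Not at h
    have := congrArg (fun x : N => constantCoeff (x : A)) (b.sum_repr ⟨1, h1⟩)
    simp only [Submodule.coe_sum, Submodule.coe_smul, Subring.smul_def, smul_eq_mul, map_sum,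
      map_mul, h, zero_mul, Finset.sum_const_zero, map_one] at this
    exact zero_ne_one this
  obtain ⟨u, hu⟩ := un S _ hi
  exact ⟨(↑u⁻¹ : W S) • b.coord i, by simp [← hu]⟩

/-- Pairs with the same constant coefficient. -/
noncomputable def P : Subring (W S × A) :=
  RingHom.eqLocus ((constantCoeff.comp (W S).subtype).comp (RingHom.fst _ _))
    (constantCoeff.comp (RingHom.snd _ _))

theorem mP {x : W S × A} : x ∈ P S ↔ constantCoeff (x.1 : A) = constantCoeff x.2 := Iff.rfl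

noncomputable def va (s : Fr (P S) 2) : W S × A := (show P S from s).1

theorem vP (s : Fr (P S) 2) : constantCoeff ((va S s).1 : A) = constantCoeff (va S s).2 :=
  (show P S from s).2

theorem vs1 (r : P S) (s : Fr (P S) 2) :
    ((va S (r • s)).1 : A) = (r.1.1 : A) ^ 2 * (va S s).1 := rfl

theorem vs2 (r : P S) (s : Fr (P S) 2) : (va S (r • s)).2 = r.1.2 ^ 2 * (va S s).2 := rfl

theorem split (N : Submodule (P S) (Fr (P S) 2)) (hN : N.FG) (h1 : one (P S) 2 ∈ N) :
    ∃ ρ : N →ₗ[P S] P S, ρ ⟨_, h1⟩ = 1 := by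
  classical
  obtain ⟨T, rfl⟩ := hN
  let w : Fr (P S) 2 → A := fun t => mk fun p => coeff (p + 1) (ψ (va S t).1)
  let L : Submodule (W S) A := Submodule.span (W S) (insert 1 (T.image w) : Finset A)
  have l1 : (1 : A) ∈ L := Submodule.subset_span (by simp)
  obtain ⟨π, hπ⟩ := retr S L (Submodule.fg_span (Finset.finite_toSet _)) l1
  have key : ∀ s ∈ Submodule.span (P S) (T : Set (Fr (P S) 2)),
      ∃ u ∈ L, ψ (va S s).1 = X * u + C (constantCoeff ((va S s).1 : A)) := by
    intro s hs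
    induction hs using Submodule.span_induction with
    | mem t ht =>
      exact ⟨w t, Submodule.subset_span (by simp; exact Or.inr ⟨t, ht, rfl⟩), by
        rw [← ψ0]; exact eq_X_mul_shift_add_const _⟩
    | zero => exact ⟨0, zero_mem _, by
        show ψ 0 = X * 0 + C (constantCoeff 0)
        ext n; simp [ψ]⟩
    | add a b _ _ ha hb =>
      obtain ⟨u, hu, e⟩ := ha
      obtain ⟨v, hv, f⟩ := hb
      refine ⟨u + v, add_mem hu hv, ?_⟩
      rw [show ((va S (a + b)).1 : A) = (va S a).1 + (va S b).1 from rfl, ψa, e, f, map_add, map_add]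
      ring
    | smul r a _ ha =>
      obtain ⟨u, hu, e⟩ := ha
      obtain ⟨v, hv⟩ : ∃ v, (r.1.1 : A) = X * v + C (constantCoeff (r.1.1 : A)) :=
        ⟨_, eq_X_mul_shift_add_const _⟩
      have hv' : v ∈ W S := sat S (hX S) X_ne_zero (by
        rw [← sub_eq_iff_eq_add.2 hv]; exact sub_mem r.1.1.2 (hC S _))
      refine ⟨r.1.1 • u + (⟨v * C (constantCoeff ((va S a).1 : A)), mul_mem hv' (hC S _)⟩ : W S) • 1,
        add_mem (L.smul_mem _ hu) (L.smul_mem _ l1), ?_⟩
      rw [vs1, ψm, e, map_mul, map_pow, sq, map_mul]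
      simp only [Subring.smul_def, smul_eq_mul]
      linear_combination C (constantCoeff ((va S a).1 : A)) * hv
  have eq : ∀ s u (hu : u ∈ L), ψ (va S s).1 = X * u + C (constantCoeff ((va S s).1 : A)) →
      ψ (va S s).1 = ((⟨X, hX S⟩ : W S) • (⟨u, hu⟩ : L) +
        (⟨C (constantCoeff ((va S s).1 : A)), hC S _⟩ : W S) • (⟨1, l1⟩ : L) : L) :=
    fun s u hu e => by simpa [Subring.smul_def] using e
  have mem : ∀ s ∈ Submodule.span (P S) (T : Set (Fr (P S) 2)), ψ (va S s).1 ∈ L := fun s hs => by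
    obtain ⟨u, hu, e⟩ := key s hs
    rw [eq s u hu e]; exact Subtype.prop _
  refine ⟨{ toFun := fun s => ⟨(π ⟨_, mem s.1 s.2⟩, ψ (va S s.1).2), ?_⟩
            map_add' := fun a b => Subtype.ext (Prod.ext ?_ (ψa _ _))
            map_smul' := fun r a => Subtype.ext (Prod.ext ?_ (ψm _ _)) },
    Subtype.ext (Prod.ext ?_ ψ1)⟩
  · obtain ⟨u, hu, e⟩ := key s.1 s.2
    rw [mP, ψ0, ← vP, Subtype.ext (a1 := ⟨_, mem s.1 s.2⟩) (eq _ u hu e), map_add, map_smul, map_smul,
      hπ]
    simp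
  · exact (congrArg π (Subtype.ext (ψa _ _))).trans (map_add π ⟨_, mem a.1 a.2⟩ ⟨_, mem b.1 b.2⟩)
  · exact (congrArg π (Subtype.ext (ψm _ _))).trans (map_smul π r.1.1 ⟨_, mem a.1 a.2⟩)
  · exact (congrArg π (Subtype.ext ψ1)).trans hπ

theorem pure : FPure (P S) 2 := by
  intro M _ _ a b h
  have h1 := Submodule.mem_span_singleton_self (R := P S) (one (P S) 2)
  obtain ⟨N, hN, hle, e⟩ := (Submodule.fg_span_singleton (R := P S)
    (one (P S) 2)).exists_rTensor_fg_inclusion_eq (x := ⟨_, h1⟩ ⊗ₜ a) (y := ⟨_, h1⟩ ⊗ₜ b)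
    (congrArg (TensorProduct.comm (P S) M (Fr (P S) 2)) h)
  obtain ⟨ρ, hρ⟩ := split S N hN (hle h1)
  have := congrArg (fun t => TensorProduct.lid (P S) M (ρ.rTensor M t)) e
  simp only [LinearMap.rTensor_tmul, TensorProduct.lid_tmul] at this
  erw [hρ, one_smul, one_smul] at this
  exact this

noncomputable def j : W S →+* P S :=
  ((RingHom.id _).prod ((C.comp constantCoeff).comp (W S).subtype)).codRestrict (P S)
    fun _ => (constantCoeff_C _).symm

theorem noeth : IsNoetherianRing (P S) := by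
  let f : P S →+* W S := (RingHom.fst _ _).comp (P S).subtype
  let g : P S →+* A := (RingHom.snd _ _).comp (P S).subtype
  letI : Module (P S) (W S) := Module.compHom _ f
  letI : Module (P S) A := Module.compHom _ g
  haveI : RingHomSurjective f := ⟨fun v => ⟨j S v, rfl⟩⟩
  haveI : RingHomSurjective g := ⟨fun b => ⟨⟨(⟨_, hC S (constantCoeff b)⟩, b), constantCoeff_C _⟩, rfl⟩⟩
  haveI : IsNoetherian (P S) (W S) := (LinearMap.isNoetherian_iff_of_bijective (σ := f) (P := W S)
    ⟨⟨id, fun _ _ => rfl⟩, fun _ _ => rfl⟩ Function.bijective_id).2 inferInstance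
  haveI : IsNoetherian (P S) A := (LinearMap.isNoetherian_iff_of_bijective (σ := g) (P := A)
    ⟨⟨id, fun _ _ => rfl⟩, fun _ _ => rfl⟩ Function.bijective_id).2 inferInstance
  let l : P S →ₗ[P S] W S × A :=
    { toFun := Subtype.val
      map_add' := fun _ _ => rfl
      map_smul' := fun _ _ => Prod.ext rfl rfl }
  exact isNoetherian_of_injective l Subtype.val_injective

theorem unP (x : P S) (h : constantCoeff x.1.2 ≠ 0) : IsUnit x := by
  obtain ⟨u, hu⟩ := (un S x.1.1 (x.2 ▸ h :)).exists_right_inv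
  obtain ⟨v, hv⟩ := (isUnit_iff_constantCoeff.2 h.isUnit).exists_right_inv
  refine IsUnit.of_mul_eq_one ⟨(u, v), mul_left_cancel₀ h ?_⟩ (Subtype.ext (Prod.ext hu hv))
  have e1 := congrArg (fun a : W S => constantCoeff (a : A)) hu
  have e2 := congrArg constantCoeff hv
  simp only [Subring.coe_mul, map_mul, (mP S).1 x.2, OneMemClass.coe_one, map_one] at e1 e2
  exact e1.trans e2.symm

theorem loc : IsLocalRing (P S) := IsLocalRing.of_isUnit_or_isUnit_one_sub_self fun x => by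
  by_cases h : constantCoeff x.1.2 = 0
  · exact Or.inr (unP S _ (by simp [h]))
  · exact Or.inl (unP S x h)

/-- The nonzero map `(a, b) ↦ (0, X * ψ b)`. -/
noncomputable def φ0 : Fr (P S) 2 →ₗ[P S] P S where
  toFun s := ⟨(0, X * ψ (va S s).2), by simp [mP]⟩
  map_add' a b := Subtype.ext (Prod.ext (add_zero _).symm
    ((congrArg (X * ·) (ψa _ _)).trans (mul_add _ _ _)))
  map_smul' r a := Subtype.ext (Prod.ext (mul_zero _).symm
    ((congrArg (X * ·) (ψm _ _)).trans (mul_left_comm _ _ _)))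

theorem result : ∃ (R : Type) (_ : CommRing R) (p : ℕ) (_ : Fact p.Prime) (_ : CharP R p),
    IsNoetherianRing R ∧ IsLocalRing R ∧ FPure R p ∧ (∃ φ : Fr R p →ₗ[R] R, φ ≠ 0) ∧
    ¬∃ φ : Fr R p →ₗ[R] R, φ (one R p) = 1 := by
  obtain ⟨z, hz⟩ := exz
  let S := Algebra.adjoin (Polynomial k) {z ^ 2}
  refine ⟨P S, inferInstance, 2, inferInstance, inferInstance, noeth S, loc S, pure S,
    ⟨φ0 S, fun h => ?_⟩, fun ⟨φ, h⟩ => ?_⟩
  · have : (X : A) * ψ 1 = 0 := congrArg (fun x : P S => x.1.2) (LinearMap.congr_fun h (one _ 2))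
    rw [ψ1, mul_one] at this
    exact X_ne_zero this
  · let i : W S → Fr (P S) 2 := fun v => j S v
    refine nz z hz (ns S z (ofS S (Algebra.subset_adjoin rfl)) (fun v => (φ (i v)).1.1) ?_
      (fun a b => ?_) fun r a => ?_)
    · rw [show i 1 = one (P S) 2 from map_one (j S), h]; rfl
    · rw [show i (a + b) = i a + i b from map_add (j S) a b, map_add]; rfl
    · rw [show i (r ^ 2 * a) = j S r • i a from (map_mul (j S) _ a).trans
        (congrArg (· * j S a) (map_pow (j S) r 2)), map_smul]; rfl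

end Pool.Agent.Results.MP_234613_al.Neg
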